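/-
MP_8790d8_co: there is a graph of type STK, namely the disjoint union of 10^12 paths with two edges
and one complete bipartite graph K_{2,200}.
-/
import Pool.Agent.Lib.Helper7.STK.Final

set_option autoImplicit false

namespace Pool.Agent.Results.MP_8790d8_co.StkGraph

open Pool.Agent.Lib.Helper7.STK

/-- The disjoint union of `10^12` paths with two edges and one `K_{2,200}` is of type STK. -/
theorem result : IsTypeSTK (stkG (10 ^ 12) 200) :=
  main (T := 100) (m := 10 ^ 12) (par_ex (10 ^ 12) (by norm_num))

end Pool.Agent.Results.MP_8790d8_co.StkGraph
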